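import Pool.Agent.Y546.WQ.Stm2

/-!
# The leading term of `T ^ m f - T ^ s f*` at `T = 1`
-/

set_option autoImplicit false

namespace Pool.Agent.Y655.WQ

open Polynomial Pool.Agent.Y546.WQ

section prods

variable {A : Type} [CommRing A]

theorem prod_const {ι : Type} (T : Finset ι) (V : ι → A) (u Y : A)
    (hV : ∀ t, Y * V t = u * Y) : Y * ∏ t ∈ T, V t = u ^ T.card * Y := by
  classical
  induction T using Finset.induction_on with
  | empty => simp
  | insert a T ha ih =>
    rw [Finset.prod_insert ha, Finset.card_insert_of_notMem ha, pow_succ]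
    calc Y * (V a * ∏ t ∈ T, V t) = (Y * V a) * ∏ t ∈ T, V t := by ring
      _ = u * (Y * ∏ t ∈ T, V t) := by rw [hV]; ring
      _ = u ^ T.card * u * Y := by rw [ih]; ring

theorem prod_diff {ι : Type} (T : Finset ι) (U V D : ι → A) (u Y : A)
    (hU : ∀ t, Y * U t = u * Y) (hV : ∀ t, Y * V t = u * Y) (hD : ∀ t, U t - V t = D t * Y) :
    u * (∏ t ∈ T, U t - ∏ t ∈ T, V t) = u ^ T.card * (∑ t ∈ T, D t) * Y := by
  classical
  induction T using Finset.induction_on with
  | empty => simp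
  | insert a T ha ih =>
    rw [Finset.prod_insert ha, Finset.prod_insert ha, Finset.card_insert_of_notMem ha, pow_succ,
      Finset.sum_insert ha]
    have h1 := prod_const T V u Y hV
    calc u * (U a * ∏ t ∈ T, U t - V a * ∏ t ∈ T, V t) =
        U a * (u * (∏ t ∈ T, U t - ∏ t ∈ T, V t)) + u * ((U a - V a) * ∏ t ∈ T, V t) := by ring
      _ = u ^ T.card * (∑ t ∈ T, D t) * (Y * U a) + u * D a * (Y * ∏ t ∈ T, V t) := by
        rw [ih, hD]; ring
      _ = _ := by rw [hU, h1]; ring

end prods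

section lead

variable {p : ℕ} [Fact p.Prime] {A : Type} [CommRing A] [Algebra (ZMod p) A] {x : A} {l : ℕ}

theorem lead (hy : (x - 1) ^ (l + 1) = 0) (q : Polynomial (ZMod p)) :
    (x - 1) ^ l * aeval x q = algebraMap (ZMod p) A (q.eval 1) * (x - 1) ^ l := by
  obtain ⟨g, hg⟩ := Polynomial.X_sub_C_dvd_sub_C_eval (a := (1 : ZMod p)) (p := q)
  have h1 : q = C (q.eval 1) + (X - C 1) * g := by rw [← hg]; ring
  have h2 : aeval x q = algebraMap (ZMod p) A (q.eval 1) + (x - 1) * aeval x g := by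
    conv_lhs => rw [h1]
    rw [map_add, map_mul, map_sub, aeval_C, aeval_X, aeval_C, map_one]
  rw [h2]
  have h3 : (x - 1) ^ l * ((x - 1) * aeval x g) = 0 := by
    rw [← mul_assoc, ← pow_succ, hy, zero_mul]
  rw [mul_add, h3, add_zero, mul_comm]

theorem lead_pow (hy : (x - 1) ^ (l + 1) = 0) (q : Polynomial (ZMod p)) (k : ℕ) :
    (x - 1) ^ l * aeval (x ^ k) q = algebraMap (ZMod p) A (q.eval 1) * (x - 1) ^ l := by
  have h := lead hy (q.comp (X ^ k))
  rw [aeval_comp, map_pow, aeval_X, eval_comp, eval_pow, eval_X, one_pow] at h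
  exact h

theorem pow_sub_one (hy : (x - 1) ^ (l + 1) = 0) (k : ℕ) :
    (x ^ k - 1) ^ l = algebraMap (ZMod p) A ((k : ZMod p) ^ l) * (x - 1) ^ l := by
  have h := lead (p := p) hy ((∑ j ∈ Finset.range k, X ^ j) ^ l)
  have e1 : aeval x ((∑ j ∈ Finset.range k, (X : Polynomial (ZMod p)) ^ j) ^ l) =
      (∑ j ∈ Finset.range k, x ^ j) ^ l := by
    rw [map_pow, map_sum]
    simp
  have e2 : ((∑ j ∈ Finset.range k, (X : Polynomial (ZMod p)) ^ j) ^ l).eval 1 =
      (k : ZMod p) ^ l := by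
    rw [eval_pow, eval_finsetSum]
    simp
  rw [e1, e2] at h
  rw [← h, ← geom_sum_mul x k, mul_pow, mul_comm]

theorem pow_sub_pow (hy : (x - 1) ^ (l + 1) = 0) (hl : 1 ≤ l) (a b : ℕ) :
    (x - 1) ^ (l - 1) * (x ^ a - x ^ b) =
      algebraMap (ZMod p) A ((a : ZMod p) - b) * (x - 1) ^ l := by
  have key : ∀ k : ℕ, (x - 1) ^ (l - 1) * (x ^ k - 1) =
      algebraMap (ZMod p) A (k : ZMod p) * (x - 1) ^ l := by
    intro k
    have h := lead (p := p) hy (∑ j ∈ Finset.range k, X ^ j)
    have e1 : aeval x (∑ j ∈ Finset.range k, (X : Polynomial (ZMod p)) ^ j) =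
        ∑ j ∈ Finset.range k, x ^ j := by
      rw [map_sum]
      simp
    have e2 : (∑ j ∈ Finset.range k, (X : Polynomial (ZMod p)) ^ j).eval 1 = (k : ZMod p) := by
      rw [eval_finsetSum]
      simp
    rw [e1, e2] at h
    rw [← h, ← geom_sum_mul x k]
    obtain ⟨l', rfl⟩ : ∃ l', l = l' + 1 := ⟨l - 1, by omega⟩
    rw [Nat.add_sub_cancel, pow_succ]
    ring
  have e : x ^ a - x ^ b = (x ^ a - 1) - (x ^ b - 1) := by ring
  rw [e, mul_sub, key, key, map_sub]
  ring

theorem refl_eval {z : A} (hz : z ^ p = 1) {f : Polynomial (ZMod p)} {m : ℕ}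
    (hf : f.natDegree ≤ m) : aeval z (f.reflect m) = z ^ m * aeval (z ^ (p - 1)) f := by
  have hp : 1 ≤ p := (Fact.out : p.Prime).one_le
  have h1 : z * z ^ (p - 1) = 1 := by
    rw [← pow_succ', Nat.sub_add_cancel hp, hz]
  let _ : Invertible (z ^ (p - 1)) := ⟨z, h1, by rw [mul_comm]; exact h1⟩
  have h2 := Polynomial.eval₂_reflect_mul_pow (algebraMap (ZMod p) A) (z ^ (p - 1)) m f hf
  have h3 : ⅟ (z ^ (p - 1)) = z := rfl
  rw [h3] at h2
  rw [aeval_def, aeval_def, ← h2]
  have h4 : z ^ m * (z ^ (p - 1)) ^ m = 1 := by rw [← mul_pow, h1, one_pow]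
  calc eval₂ (algebraMap (ZMod p) A) z (reflect m f) =
      eval₂ (algebraMap (ZMod p) A) z (reflect m f) * (z ^ m * (z ^ (p - 1)) ^ m) := by
        rw [h4, mul_one]
    _ = _ := by ring

theorem thP_eval (f : Polynomial (ZMod p)) (z : A) :
    aeval z (thP p f) = ∏ t ∈ half p, aeval (z ^ ((t⁻¹ : (ZMod p)ˣ) : ZMod p).val) f := by
  unfold thP
  rw [map_prod]
  refine Finset.prod_congr rfl fun t _ => ?_
  rw [aeval_comp, map_pow, aeval_X]

omit [Algebra (ZMod p) A] in
theorem pow_congr {z : A} (hz : z ^ p = 1) {a b : ℕ} (h : (a : ZMod p) = b) : z ^ a = z ^ b := by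
  have key : ∀ n : ℕ, z ^ n = z ^ (n % p) := by
    intro n
    conv_lhs => rw [← Nat.div_add_mod n p]
    rw [pow_add, pow_mul, hz, one_pow, one_mul]
  have h1 : a % p = b % p := (ZMod.natCast_eq_natCast_iff' a b p).1 h
  rw [key a, key b, h1]

end lead

theorem core_A (p : ℕ) [Fact p.Prime] (hp2 : p ≠ 2) (m s i l : ℕ)
    (f W : Polynomial (ZMod p)) (r : ZMod p) (hf : f.natDegree ≤ m) (hu : f.eval 1 ≠ 0)
    (hr : r ≠ 0) (hth : (X - 1) ^ (p - 1) ∣ thP p f - Polynomial.C r * X ^ i)
    (hUV : X ^ m * f - X ^ s * f.reflect m = (X - 1) ^ l * W) (hw : W.eval 1 ≠ 0) (hl1 : 1 ≤ l)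
    (hlp : l + 2 ≤ p) (hcase : 2 ≤ l ∨ 2 * (i : ZMod p) = s * hs p)
    {A : Type} [CommRing A] [Algebra (ZMod p) A] (x : A) (hy : (x - 1) ^ (l + 1) = 0)
    (hnz : ∀ c : ZMod p, algebraMap (ZMod p) A c * (x - 1) ^ l = 0 → c = 0) :
    Odd l ∧ hsj p l = 0 := by
  classical
  have hxp : x ^ p = 1 := by
    have h1 : ((X : Polynomial (ZMod p)) - 1) ^ p = X ^ p - 1 := by
      rw [sub_pow_char, one_pow]
    have h2 := congrArg (aeval x) h1
    rw [map_pow, map_sub, map_sub, map_pow, aeval_X, map_one] at h2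
    have h3 : (x - 1) ^ p = 0 := by
      obtain ⟨c, hc⟩ : ∃ c, p = (l + 1) + c := ⟨p - (l + 1), by omega⟩
      rw [hc, pow_add, hy, zero_mul]
    rw [h3] at h2
    exact (sub_eq_zero.1 h2.symm)
  have hy2 : (x - 1) ^ (p - 1) = 0 := by
    obtain ⟨c, hc⟩ : ∃ c, p - 1 = (l + 1) + c := ⟨p - 1 - (l + 1), by omega⟩
    rw [hc, pow_add, hy, zero_mul]
  obtain ⟨z, hz⟩ : ∃ z, z = x ^ (p - 1) := ⟨_, rfl⟩
  have hzx : z * x = 1 := by
    rw [hz, ← pow_succ, Nat.sub_add_cancel (Fact.out : p.Prime).one_le, hxp]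
  have hzp : z ^ p = 1 := by rw [hz, ← pow_mul, mul_comm, pow_mul, hxp, one_pow]
  have hzz : z ^ (p - 1) = x := by
    calc z ^ (p - 1) = z ^ (p - 1) * (z * x) := by rw [hzx, mul_one]
      _ = z ^ (p - 1 + 1) * x := by rw [pow_succ]; ring
      _ = x := by rw [Nat.sub_add_cancel (Fact.out : p.Prime).one_le, hzp, one_mul]
  have hev : ∀ z' : A, z' ^ m * aeval z' f - z' ^ s * aeval z' (f.reflect m) =
      (z' - 1) ^ l * aeval z' W := by
    intro z'
    have h1 := congrArg (aeval z') hUV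
    simpa using h1
  have hrx := refl_eval hxp hf
  have hrz := refl_eval hzp hf
  rw [← hz] at hrx
  rw [hzz] at hrz
  have hVe : (f.reflect m).eval 1 = f.eval 1 := by
    have h1 := congrArg (Polynomial.eval 1) hUV
    rw [eval_sub, eval_mul, eval_mul, eval_mul, eval_pow, eval_pow, eval_pow, eval_X, eval_sub,
      eval_X, eval_one, sub_self, zero_pow (by omega), zero_mul, one_pow, one_pow, one_mul,
      one_mul] at h1
    exact (sub_eq_zero.1 h1).symm
  constructor
  · -- the exponent is odd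
    have e1 := hev z
    have e2 := hev x
    rw [hrz] at e1
    rw [hrx] at e2
    have hxm : x ^ m * z ^ m = 1 := by rw [← mul_pow, mul_comm, hzx, one_pow]
    have hxs : x ^ s * z ^ s = 1 := by rw [← mul_pow, mul_comm, hzx, one_pow]
    have e3 : x ^ (2 * m + s) * (z ^ m * aeval z f - z ^ s * (z ^ m * aeval x f)) =
        -(x ^ m * aeval x f - x ^ s * (x ^ m * aeval z f)) := by
      have : x ^ (2 * m + s) * (z ^ m * aeval z f - z ^ s * (z ^ m * aeval x f)) =
          (x ^ m * z ^ m) * (x ^ m * x ^ s * aeval z f) -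
            (x ^ m * z ^ m) * (x ^ s * z ^ s) * (x ^ m * aeval x f) := by ring
      rw [this, hxm, hxs]
      ring
    rw [e1, e2, lead hy] at e3
    have hz1 : (z - 1) ^ l = algebraMap (ZMod p) A (((p - 1 : ℕ) : ZMod p) ^ l) * (x - 1) ^ l := by
      rw [hz]
      exact pow_sub_one hy (p - 1)
    have hcast : (((p - 1 : ℕ) : ZMod p)) = -1 := by
      rw [Nat.cast_sub (Fact.out : p.Prime).one_le, Nat.cast_one, ZMod.natCast_self, zero_sub]
    rw [hz1, hcast] at e3
    have e4 : (x - 1) ^ l * aeval z W = algebraMap (ZMod p) A (W.eval 1) * (x - 1) ^ l := by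
      rw [hz]
      exact lead_pow hy W (p - 1)
    have e5 : (x - 1) ^ l * x ^ (2 * m + s) = (x - 1) ^ l := by
      have h := lead (p := p) hy (X ^ (2 * m + s))
      rwa [map_pow, aeval_X, eval_pow, eval_X, one_pow, map_one, one_mul] at h
    have e6 : algebraMap (ZMod p) A ((-1) ^ l * W.eval 1 + W.eval 1) * (x - 1) ^ l = 0 := by
      have h1 : x ^ (2 * m + s) * (algebraMap (ZMod p) A ((-1) ^ l) * (x - 1) ^ l * aeval z W) =
          algebraMap (ZMod p) A ((-1) ^ l) * algebraMap (ZMod p) A (W.eval 1) * (x - 1) ^ l := by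
        calc x ^ (2 * m + s) * (algebraMap (ZMod p) A ((-1) ^ l) * (x - 1) ^ l * aeval z W) =
            algebraMap (ZMod p) A ((-1) ^ l) * x ^ (2 * m + s) * ((x - 1) ^ l * aeval z W) := by
              ring
          _ = algebraMap (ZMod p) A ((-1) ^ l) * algebraMap (ZMod p) A (W.eval 1) *
              ((x - 1) ^ l * x ^ (2 * m + s)) := by rw [e4]; ring
          _ = _ := by rw [e5]
      rw [h1] at e3
      rw [map_add, map_mul, add_mul, e3]
      ring
    have h7 := hnz _ e6
    by_contra hodd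
    rw [Nat.not_odd_iff_even] at hodd
    rw [hodd.neg_one_pow, one_mul, ← two_mul] at h7
    rcases mul_eq_zero.1 h7 with h8 | h8
    · have h9 : ((2 : ℕ) : ZMod p) = 0 := by exact_mod_cast h8
      rw [ZMod.natCast_eq_zero_iff] at h9
      exact hp2 ((Nat.prime_dvd_prime_iff_eq Fact.out Nat.prime_two).1 h9)
    · exact hw h8
  · -- the sum of powers
    obtain ⟨k, hk⟩ : ∃ k : (ZMod p)ˣ → ℕ, ∀ t, k t = ((t⁻¹ : (ZMod p)ˣ) : ZMod p).val :=
      ⟨_, fun _ => rfl⟩
    have hkc : ∀ t, ((k t : ℕ) : ZMod p) = ((t⁻¹ : (ZMod p)ˣ) : ZMod p) := by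
      intro t
      rw [hk, ZMod.natCast_zmod_val]
    obtain ⟨S, hS⟩ : ∃ S : ℕ, S = ∑ t ∈ half p, k t := ⟨_, rfl⟩
    have hSc : (S : ZMod p) = hs p := by
      rw [hS, Nat.cast_sum]
      unfold hs
      exact Finset.sum_congr rfl fun t _ => hkc t
    have hthx : ∀ z' : A, (z' - 1) ^ (p - 1) = 0 →
        ∏ t ∈ half p, aeval (z' ^ k t) f = algebraMap (ZMod p) A r * z' ^ i := by
      intro z' hz'
      obtain ⟨Q, hQ⟩ := hth
      have h1 := congrArg (aeval z') hQ
      rw [map_mul, map_pow, map_sub, map_sub, map_mul, aeval_X, map_one, hz', zero_mul, aeval_C,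
        map_pow, aeval_X, thP_eval] at h1
      have h2 := sub_eq_zero.1 h1
      rw [← h2]
      exact Finset.prod_congr rfl fun t _ => by rw [hk]
    have hz0 : (z - 1) ^ (p - 1) = 0 := by
      rw [hz, ← geom_sum_mul x (p - 1), mul_pow, hy2, mul_zero]
    have hmain := prod_diff (half p)
      (fun t => (x ^ k t) ^ m * aeval (x ^ k t) f)
      (fun t => (x ^ k t) ^ s * aeval (x ^ k t) (f.reflect m))
      (fun t => algebraMap (ZMod p) A (W.eval 1 * (k t : ZMod p) ^ l))
      (algebraMap (ZMod p) A (f.eval 1)) ((x - 1) ^ l)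
      (by
        intro t
        have h := lead_pow (p := p) hy (X ^ m * f) (k t)
        rw [map_mul, map_pow, aeval_X, eval_mul, eval_pow, eval_X, one_pow, one_mul] at h
        exact h)
      (by
        intro t
        have h := lead_pow (p := p) hy (X ^ s * f.reflect m) (k t)
        rw [map_mul, map_pow, aeval_X, eval_mul, eval_pow, eval_X, one_pow, one_mul, hVe] at h
        exact h)
      (by
        intro t
        show (x ^ k t) ^ m * aeval (x ^ k t) f - (x ^ k t) ^ s * aeval (x ^ k t) (f.reflect m) = _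
        rw [hev, pow_sub_one (p := p) hy, mul_assoc, lead_pow hy, map_mul]
        ring)
    have hPU : ∏ t ∈ half p, ((x ^ k t) ^ m * aeval (x ^ k t) f) =
        (x ^ S) ^ m * (algebraMap (ZMod p) A r * x ^ i) := by
      rw [Finset.prod_mul_distrib, hthx x hy2, Finset.prod_pow, Finset.prod_pow_eq_pow_sum, hS]
    have hPV : ∏ t ∈ half p, ((x ^ k t) ^ s * aeval (x ^ k t) (f.reflect m)) =
        (x ^ S) ^ s * ((x ^ S) ^ m * (algebraMap (ZMod p) A r * z ^ i)) := by
      rw [Finset.prod_mul_distrib, Finset.prod_pow, Finset.prod_pow_eq_pow_sum, ← hS]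
      congr 1
      have h1 : ∀ t ∈ half p, aeval (x ^ k t) (f.reflect m) =
          (x ^ k t) ^ m * aeval (z ^ k t) f := by
        intro t _
        have h2 : (x ^ k t) ^ p = 1 := by rw [← pow_mul, mul_comm, pow_mul, hxp, one_pow]
        rw [refl_eval h2 hf, hz]
        congr 3
        rw [← pow_mul, ← pow_mul, mul_comm]
      rw [Finset.prod_congr rfl h1, Finset.prod_mul_distrib, hthx z hz0, Finset.prod_pow,
        Finset.prod_pow_eq_pow_sum, ← hS]
    rw [hPU, hPV] at hmain
    have hsum : ∑ t ∈ half p, algebraMap (ZMod p) A (W.eval 1 * (k t : ZMod p) ^ l) =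
        algebraMap (ZMod p) A (W.eval 1 * hsj p l) := by
      rw [← map_sum, ← Finset.mul_sum]
      unfold hsj
      congr 2
      exact Finset.sum_congr rfl fun t _ => by rw [hkc]
    rw [hsum] at hmain
    obtain ⟨a, ha⟩ : ∃ a : ℕ, a = S * m + i := ⟨_, rfl⟩
    obtain ⟨b, hb⟩ : ∃ b : ℕ, b = S * m + S * s + (p - 1) * i := ⟨_, rfl⟩
    have hxa : (x ^ S) ^ m * (algebraMap (ZMod p) A r * x ^ i) =
        algebraMap (ZMod p) A r * x ^ a := by
      rw [ha, pow_add, pow_mul]
      ring
    have hxb : (x ^ S) ^ s * ((x ^ S) ^ m * (algebraMap (ZMod p) A r * z ^ i)) =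
        algebraMap (ZMod p) A r * x ^ b := by
      rw [hb, pow_add, pow_add, pow_mul x S m, pow_mul x S s, pow_mul x (p - 1) i, ← hz]
      ring
    rw [hxa, hxb] at hmain
    have hab : (a : ZMod p) = b := by
      have hbc : (b : ZMod p) = S * m + S * s - i := by
        rw [hb]
        push_cast
        rw [Nat.cast_sub (Fact.out : p.Prime).one_le, Nat.cast_one, ZMod.natCast_self]
        ring
      rcases hcase with hl2 | hi
      · have h1 : algebraMap (ZMod p) A (f.eval 1 * (r * ((a : ZMod p) - b))) * (x - 1) ^ l = 0 := by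
          have h2 := congrArg (fun q => (x - 1) ^ (l - 1) * q) hmain
          have h3 : (x - 1) ^ (l - 1) * (algebraMap (ZMod p) A (f.eval 1) ^ (half p).card *
              algebraMap (ZMod p) A (W.eval 1 * hsj p l) * (x - 1) ^ l) = 0 := by
            have h4 : (x - 1) ^ (l - 1) * (x - 1) ^ l = 0 := by
              rw [← pow_add]
              obtain ⟨c, hc⟩ : ∃ c, l - 1 + l = (l + 1) + c := ⟨l - 2, by omega⟩
              rw [hc, pow_add, hy, zero_mul]
            calc _ = algebraMap (ZMod p) A (f.eval 1) ^ (half p).card *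
                algebraMap (ZMod p) A (W.eval 1 * hsj p l) * ((x - 1) ^ (l - 1) * (x - 1) ^ l) := by
                  ring
              _ = 0 := by rw [h4, mul_zero]
          rw [h3] at h2
          have h5 := pow_sub_pow (p := p) hy hl1 a b
          rw [map_mul, map_mul]
          calc algebraMap (ZMod p) A (f.eval 1) * (algebraMap (ZMod p) A r *
              algebraMap (ZMod p) A ((a : ZMod p) - b)) * (x - 1) ^ l =
              algebraMap (ZMod p) A (f.eval 1) * algebraMap (ZMod p) A r *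
                (algebraMap (ZMod p) A ((a : ZMod p) - b) * (x - 1) ^ l) := by ring
            _ = (x - 1) ^ (l - 1) * (algebraMap (ZMod p) A (f.eval 1) *
                (algebraMap (ZMod p) A r * x ^ a - algebraMap (ZMod p) A r * x ^ b)) := by
                rw [← h5]; ring
            _ = 0 := h2
        have h6 := hnz _ h1
        rcases mul_eq_zero.1 h6 with h7 | h7
        · exact absurd h7 hu
        · rcases mul_eq_zero.1 h7 with h8 | h8
          · exact absurd h8 hr
          · exact sub_eq_zero.1 h8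
      · rw [hbc, ha]
        push_cast
        rw [hSc]
        linear_combination hi
    have hxab : x ^ a = x ^ b := pow_congr hxp hab
    rw [hxab, sub_self, mul_zero, ← map_pow, ← map_mul] at hmain
    have h9 := hnz _ hmain.symm
    rcases mul_eq_zero.1 h9 with h10 | h10
    · exact absurd h10 (pow_ne_zero _ hu)
    · exact (mul_eq_zero.1 h10).resolve_left hw

/-- **the leading term at one** -/
theorem mainCORE : S_CORE := by
  intro p _ hp2 m s i l f W r hf hu hr hth hUV hw hl1 hlp hcase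
  refine core_A p hp2 m s i l f W r hf hu hr hth hUV hw hl1 hlp hcase
    (A := Polynomial (ZMod p) ⧸ Ideal.span {((X : Polynomial (ZMod p)) - 1) ^ (l + 1)})
    (Ideal.Quotient.mk _ X) ?_ ?_
  · have h : (Ideal.Quotient.mk (Ideal.span {((X : Polynomial (ZMod p)) - 1) ^ (l + 1)}) X - 1) ^
        (l + 1) = Ideal.Quotient.mk _ ((X - 1) ^ (l + 1)) := by
      rw [map_pow, map_sub, map_one]
    rw [h]
    exact Ideal.Quotient.eq_zero_iff_mem.2 (Ideal.mem_span_singleton_self _)
  · intro c hc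
    have h : algebraMap (ZMod p) (Polynomial (ZMod p) ⧸
        Ideal.span {((X : Polynomial (ZMod p)) - 1) ^ (l + 1)}) c *
        (Ideal.Quotient.mk (Ideal.span {((X : Polynomial (ZMod p)) - 1) ^ (l + 1)}) X - 1) ^ l =
        Ideal.Quotient.mk _ (C c * (X - 1) ^ l) := by
      rw [map_mul, map_pow, map_sub, map_one]
      rfl
    rw [h, Ideal.Quotient.eq_zero_iff_mem, Ideal.mem_span_singleton, pow_succ, mul_comm (C c)] at hc
    have hX : ((X : Polynomial (ZMod p)) - 1) ≠ 0 := by
      have : ((X : Polynomial (ZMod p)) - C 1) ≠ 0 := X_sub_C_ne_zero 1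
      rwa [C_1] at this
    have h2 := (mul_dvd_mul_iff_left (pow_ne_zero l hX)).1 hc
    obtain ⟨g, hg⟩ := h2
    have h3 := congrArg (Polynomial.eval 1) hg
    rw [eval_C, eval_mul, eval_sub, eval_X, eval_one, sub_self, zero_mul] at h3
    exact h3

end Pool.Agent.Y655.WQ
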